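import Pool.Agent.Helper9.RC2.Goals
import Pool.Agent.Helper38.RC.TComp
import Pool.Agent.Helper6.RC.DomMat

/-!
# MP_b55b7c_an: packet RC2-LOC
-/

open scoped ENNReal NNReal InnerProductSpace ComplexOrder
open Filter Topology

attribute [-instance] CStarMatrix.instAlgebra CStarMatrix.instModule CStarMatrix.instSMul
  CStarMatrix.instMulAction CStarMatrix.instDistribMulAction

set_option linter.unusedSectionVars false

noncomputable section
namespace Pool.Agent.Helper39.RC2.LOC

open _root_.RC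

universe u

section
variable {D : Type u} [CStarAlgebra D] [PartialOrder D] [StarOrderedRing D]

/-- the positive part is bounded by the square -/
theorem pos_le (T : D) (hT : IsSelfAdjoint T) (s : ℝ) (hs : 0 < s) :
    cfc (fun t : ℝ => max t 0) T ≤ s⁻¹ • (T * T) + s • (1 : D) := by
  have h1 : s⁻¹ • (T * T) + s • (1 : D) = cfc (fun t : ℝ => s⁻¹ * (t * t) + s) T := by
    rw [cfc_add T (fun t : ℝ => s⁻¹ * (t * t)) (fun _ : ℝ => s),
      cfc_const_mul s⁻¹ (fun t : ℝ => t * t) T, cfc_mul (fun t : ℝ => t) (fun t : ℝ => t) T,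
      cfc_id' ℝ T, cfc_const s T, Algebra.algebraMap_eq_smul_one]
  rw [h1]
  refine cfc_mono (fun t _ => ?_) (by fun_prop) (by fun_prop)
  have h2 : 0 ≤ s⁻¹ * (t - s) ^ 2 := by positivity
  have h3 : s⁻¹ * (t - s) ^ 2 = s⁻¹ * (t * t) - 2 * t + s := by
    field_simp
    ring
  have h4 : 0 ≤ s⁻¹ * (t * t) := mul_nonneg (by positivity) (mul_self_nonneg t)
  rcases le_total t 0 with h | h
  · rw [max_eq_right h]; linarith
  · rw [max_eq_left h]; linarith

theorem le_pos (T : D) (hT : IsSelfAdjoint T) : T ≤ cfc (fun t : ℝ => max t 0) T := by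
  conv_lhs => rw [← cfc_id' ℝ T]
  exact cfc_mono (fun t _ => le_max_left _ _) (by fun_prop) (by fun_prop)

theorem phi_re_mono (φ : TState D) {x y : D} (h : x ≤ y) : (φ.φ x).re ≤ (φ.φ y).re := by
  have h1 := φ.nonneg _ (sub_nonneg.2 h)
  rw [map_sub] at h1
  have h2 := (Complex.nonneg_iff.1 h1).1
  rw [Complex.sub_re] at h2
  linarith

theorem phi_rsmul (φ : TState D) (c : ℝ) (x : D) : (φ.φ (c • x)).re = c * (φ.φ x).re := by
  rw [← Complex.coe_smul c x, map_smul, smul_eq_mul, Complex.re_ofReal_mul]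

theorem phi_pos_le (φ : TState D) (T : D) (hT : IsSelfAdjoint T) (s : ℝ) (hs : 0 < s)
    (h : (φ.φ (T * T)).re < s ^ 2) :
    (φ.φ (cfc (fun t : ℝ => max t 0) T)).re < 2 * s := by
  have h1 := phi_re_mono φ (pos_le T hT s hs)
  rw [map_add, Complex.add_re, phi_rsmul, phi_rsmul, φ.one, Complex.one_re, mul_one] at h1
  have h2 : s⁻¹ * (φ.φ (T * T)).re < s⁻¹ * s ^ 2 := mul_lt_mul_of_pos_left h (by positivity)
  have h3 : s⁻¹ * s ^ 2 = s := by field_simp
  linarith

end

theorem t (h1 : TC2P.{u}) (h3 : RedDnP.{u}) (h5 : FlatP.{u}) (h6 : QMonoP.{u}) : LocP.{u} := by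
  intro A _ _ _ ι κ _ _ _ _ a b ha hb hab φ ε hε
  rcases isEmpty_or_nonempty ι with hι | hι
  · refine ⟨0, 0, le_rfl, ?_, ?_⟩
    · apply le_of_eq
      ext i j
      exact (hι.false i).elim
    · unfold tm
      rw [Finset.univ_eq_empty, Finset.sum_empty]
      exact hε
  have hν : Nonempty (ι ⊕ κ) := ⟨Sum.inl hι.some⟩
  let R : CStarMatrix (ι ⊕ κ) ι A :=
    CStarMatrix.ofMatrix (Matrix.of fun p i => if p = Sum.inl i then 1 else 0)
  let S : CStarMatrix (ι ⊕ κ) κ A :=
    CStarMatrix.ofMatrix (Matrix.of fun p i => if p = Sum.inr i then 1 else 0)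
  have hR : R.conjTranspose * R = 1 := by
    ext i j
    rw [CStarMatrix.mul_apply]
    simp [R, CStarMatrix.conjTranspose_apply, CStarMatrix.one_apply]
    by_cases hij : i = j
    · subst hij; simp
    · simp [hij, Ne.symm hij]
  have hS : S.conjTranspose * S = 1 := by
    ext i j
    rw [CStarMatrix.mul_apply]
    simp [S, CStarMatrix.conjTranspose_apply, CStarMatrix.one_apply]
    by_cases hij : i = j
    · subst hij; simp
    · simp [hij, Ne.symm hij]
  have hcard : (0 : ℝ) < Fintype.card (ι ⊕ κ) := by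
    exact_mod_cast Fintype.card_pos
  set s : ℝ := ε / (2 * Fintype.card (ι ⊕ κ)) with hs
  have hs0 : 0 < s := by positivity
  obtain ⟨y', hy'⟩ := h1 (CStarMatrix (ι ⊕ κ) (ι ⊕ κ) A) (Helper6.RC.tst φ (ι ⊕ κ))
    (R * a * R.conjTranspose) (S * b * S.conjTranspose) (cm_conj_nonneg R ha)
    (cm_conj_nonneg S hb) (by
      intro τ
      obtain ⟨σ, hσ⟩ := h3 A (ι ⊕ κ) τ
      rw [hσ Unit _ (one1_nonneg38 (cm_conj_nonneg R ha)),
        hσ Unit _ (one1_nonneg38 (cm_conj_nonneg S hb)),
        dim_flat38 h5 h6 σ R hR a ha, dim_flat38 h5 h6 σ S hS b hb]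
      exact div_lt_div_of_pos_right (hab σ) hcard) (s ^ 2) (by positivity)
  set T : CStarMatrix (ι ⊕ κ) (ι ⊕ κ) A :=
    R * a * R.conjTranspose - star y' * (S * b * S.conjTranspose) * y' with hTdef
  have hT : IsSelfAdjoint T := by
    have e1 : IsSelfAdjoint (R * a * R.conjTranspose) := (cm_conj_nonneg R ha).isSelfAdjoint
    have e2 : IsSelfAdjoint (star y' * (S * b * S.conjTranspose) * y') :=
      (cm_conj_nonneg' y' (cm_conj_nonneg S hb)).isSelfAdjoint
    exact e1.sub e2
  set h' : CStarMatrix (ι ⊕ κ) (ι ⊕ κ) A := cfc (fun t : ℝ => max t 0) T with hh'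
  have hh0 : 0 ≤ h' := cfc_nonneg fun _ _ => le_max_right _ _
  have hph := phi_pos_le (Helper6.RC.tst φ (ι ⊕ κ)) T hT s hs0 hy'
  refine ⟨S.conjTranspose * y' * R, R.conjTranspose * h' * R, cm_conj_nonneg' R hh0, ?_, ?_⟩
  · have h7 : R * a * R.conjTranspose ≤ star y' * (S * b * S.conjTranspose) * y' + h' := by
      have := le_pos T hT
      rw [hTdef, sub_le_iff_le_add'] at this
      exact this
    have h8 := cm_conj_le' R h7
    have e1 : R.conjTranspose * (R * a * R.conjTranspose) * R = a := by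
      rw [cm_assoc R, ← cm_assoc R.conjTranspose R, hR, cm_one_mul, cm_assoc, hR, cm_mul_one]
    have e2 : R.conjTranspose * (star y' * (S * b * S.conjTranspose) * y' + h') * R =
        (S.conjTranspose * y' * R).conjTranspose * b * (S.conjTranspose * y' * R) +
        R.conjTranspose * h' * R := by
      have a1 : ∀ x y : CStarMatrix (ι ⊕ κ) (ι ⊕ κ) A, R.conjTranspose * (x + y) * R =
        R.conjTranspose * x * R + R.conjTranspose * y * R := by
        intro x y
        rw [show R.conjTranspose * (x + y) = R.conjTranspose * x + R.conjTranspose * y from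
          Matrix.mul_add _ _ _]
        exact Matrix.add_mul _ _ _
      rw [a1]
      congr 1
      rw [cm_conj_mul, cm_conj_mul, cm_conj_conj, ← cm_star_eq]
      simp only [cm_assoc]
    rwa [e1, e2] at h8
  · have e3 : ∀ i, (R.conjTranspose * h' * R) i i = h' (Sum.inl i) (Sum.inl i) := by
      intro i
      rw [CStarMatrix.mul_apply, Finset.sum_eq_single (Sum.inl i)]
      · rw [CStarMatrix.mul_apply, Finset.sum_eq_single (Sum.inl i)]
        · simp [R, CStarMatrix.conjTranspose_apply]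
        · intro p _ hp
          simp [R, CStarMatrix.conjTranspose_apply, hp]
        · simp
      · intro p _ hp
        simp [R, hp]
      · simp
    have e4 : tm φ (R.conjTranspose * h' * R) ≤ ∑ p, (φ.φ (h' p p)).re := by
      unfold tm
      rw [Fintype.sum_sum_type]
      have e5 : ∑ i, (φ.φ ((R.conjTranspose * h' * R) i i)).re =
          ∑ i, (φ.φ (h' (Sum.inl i) (Sum.inl i))).re :=
        Finset.sum_congr rfl fun i _ => by rw [e3]
      have e6 : 0 ≤ ∑ i, (φ.φ (h' (Sum.inr i) (Sum.inr i))).re :=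
        Finset.sum_nonneg fun i _ =>
          (Complex.nonneg_iff.1 (φ.nonneg _ (Helper6.RC.diag_nonneg hh0 (Sum.inr i)))).1
      linarith
    have e7 : ((Helper6.RC.tst φ (ι ⊕ κ)).φ h').re =
        (Fintype.card (ι ⊕ κ) : ℝ)⁻¹ * ∑ p, (φ.φ (h' p p)).re := by
      show ((Fintype.card (ι ⊕ κ) : ℂ)⁻¹ * ∑ k, φ.φ (h' k k)).re = _
      rw [← Complex.ofReal_natCast, ← Complex.ofReal_inv, Complex.re_ofReal_mul, Complex.re_sum]
    rw [e7] at hph
    have e8 : ∑ p, (φ.φ (h' p p)).re < Fintype.card (ι ⊕ κ) * (2 * s) := by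
      rw [inv_mul_lt_iff₀ hcard] at hph
      exact hph
    have e9 : (Fintype.card (ι ⊕ κ) : ℝ) * (2 * s) = ε := by
      rw [hs]
      field_simp
    linarith

end Pool.Agent.Helper39.RC2.LOC
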